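import Pool.Agent.W184.NV.Defs

set_option autoImplicit false

namespace Pool.Agent.W605.NV

open MeasureTheory Filter Topology Pool.Agent.W184.NV

theorem DV_add (g h : ℕ →₀ ℂ) (s : ℂ) : DV (g + h) s = DV g s + DV h s := by
  unfold DV
  exact Finsupp.sum_add_index' (fun n => by simp) (fun n a b => by ring)

theorem DV_smul (c : ℂ) (g : ℕ →₀ ℂ) (s : ℂ) : DV (c • g) s = c * DV g s := by
  unfold DV
  rw [Finsupp.sum_smul_index' (fun n => by simp), Finsupp.mul_sum]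
  simp only [smul_eq_mul, mul_assoc]

theorem DV_neg (g : ℕ →₀ ℂ) (s : ℂ) : DV (-g) s = -DV g s := by
  have := DV_smul (-1) g s
  rwa [neg_one_smul, neg_one_mul] at this

theorem DV_zero (s : ℂ) : DV 0 s = 0 := by
  unfold DV
  simp

theorem DV_diff {g : ℕ →₀ ℂ} (hg : g 0 = 0) : Differentiable ℂ (DV g) := by
  have e : DV g = fun s => ∑ n ∈ g.support, g n * (n : ℂ) ^ (-s) := rfl
  rw [e]
  refine Differentiable.fun_sum fun n hn => ?_
  have hn0 : (n : ℂ) ≠ 0 := by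
    intro h
    have : n = 0 := by exact_mod_cast h
    rw [this] at hn
    exact (Finsupp.mem_support_iff.mp hn) hg
  intro s
  refine DifferentiableAt.const_mul ?_ _
  exact DifferentiableAt.const_cpow (by fun_prop) (Or.inl hn0)

/-- sum of the absolute values of the coefficients -/
noncomputable def Ms (g : ℕ →₀ ℂ) : ℝ := g.sum fun _ a => ‖a‖

theorem Ms_nonneg (g : ℕ →₀ ℂ) : 0 ≤ Ms g :=
  Finset.sum_nonneg fun _ _ => norm_nonneg _

theorem DV_le {g : ℕ →₀ ℂ} (hg : g 0 = 0) {s : ℂ} (hs : 0 ≤ s.re) : ‖DV g s‖ ≤ Ms g := by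
  unfold DV Ms Finsupp.sum
  refine (norm_sum_le _ _).trans (Finset.sum_le_sum fun n hn => ?_)
  have hn0 : n ≠ 0 := by
    intro h
    rw [h] at hn
    exact (Finsupp.mem_support_iff.mp hn) hg
  have hnp : 0 < n := Nat.pos_of_ne_zero hn0
  rw [norm_mul, Complex.norm_natCast_cpow_of_pos hnp]
  have h1 : (n : ℝ) ^ (-s).re ≤ 1 := by
    apply Real.rpow_le_one_of_one_le_of_nonpos
    · exact_mod_cast hnp
    · simpa using hs
  calc ‖g n‖ * (n : ℝ) ^ (-s).re ≤ ‖g n‖ * 1 := mul_le_mul_of_nonneg_left h1 (norm_nonneg _)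
    _ = ‖g n‖ := mul_one _

/-- bound of the mean -/
def Mean (g : ℕ →₀ ℂ) (c : ℝ) : Prop :=
  ∀ᶠ T : ℝ in atTop, 1 / (2 * T) * ∫ t in (-T)..T, ‖DV g (t * Complex.I)‖ ≤ c

theorem cont_line {g : ℕ →₀ ℂ} (hg : g 0 = 0) :
    Continuous fun t : ℝ => ‖DV g (t * Complex.I)‖ :=
  ((DV_diff hg).continuous.comp (by fun_prop)).norm

theorem Mean.add {g h : ℕ →₀ ℂ} {c d : ℝ} (hg0 : g 0 = 0) (hh0 : h 0 = 0) (hg : Mean g c)
    (hh : Mean h d) : Mean (g + h) (c + d) := by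
  filter_upwards [hg, hh, eventually_gt_atTop 0] with T h1 h2 hT
  have hgh : (g + h) 0 = 0 := by rw [Finsupp.add_apply, hg0, hh0, add_zero]
  have h3 : ∫ t in (-T)..T, ‖DV (g + h) (t * Complex.I)‖
      ≤ (∫ t in (-T)..T, ‖DV g (t * Complex.I)‖) + ∫ t in (-T)..T, ‖DV h (t * Complex.I)‖ := by
    rw [← intervalIntegral.integral_add ((cont_line hg0).intervalIntegrable _ _)
      ((cont_line hh0).intervalIntegrable _ _)]
    refine intervalIntegral.integral_mono_on (by linarith) ((cont_line hgh).intervalIntegrable _ _)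
      (((cont_line hg0).add (cont_line hh0)).intervalIntegrable _ _) fun t _ => ?_
    rw [DV_add]
    exact norm_add_le _ _
  have h4 : 0 ≤ 1 / (2 * T) := by positivity
  have h5 := mul_le_mul_of_nonneg_left h3 h4
  rw [mul_add] at h5
  linarith

theorem Mean.smul {g : ℕ →₀ ℂ} {c : ℝ} (hg : Mean g c) (r : ℂ) : Mean (r • g) (‖r‖ * c) := by
  filter_upwards [hg] with T h1
  have e : ∀ t : ℝ, ‖DV (r • g) (t * Complex.I)‖ = ‖r‖ * ‖DV g (t * Complex.I)‖ := fun t => by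
    rw [DV_smul, norm_mul]
  simp_rw [e]
  rw [intervalIntegral.integral_const_mul]
  calc 1 / (2 * T) * (‖r‖ * ∫ t in (-T)..T, ‖DV g (t * Complex.I)‖)
      = ‖r‖ * (1 / (2 * T) * ∫ t in (-T)..T, ‖DV g (t * Complex.I)‖) := by ring
    _ ≤ ‖r‖ * c := mul_le_mul_of_nonneg_left h1 (norm_nonneg _)

theorem Mean.zero : Mean 0 0 := by
  filter_upwards with T
  simp [DV_zero]

/-- uniform continuity near the segment -/
theorem near {g : ℕ →₀ ℂ} (hg : g 0 = 0) {K t₀ : ℝ} (hK : 0 < K)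
    (h : ∀ t : ℝ, |t| ≤ t₀ → K ≤ ‖DV g (1 / 2 + t * Complex.I)‖) :
    ∃ r : ℝ, 0 < r ∧ ∀ s : ℂ, 1 / 2 ≤ s.re → s.re ≤ 1 / 2 + r → |s.im| ≤ t₀ → K / 2 ≤ ‖DV g s‖ := by
  have hc : IsCompact ((fun t : ℝ => (1 / 2 + t * Complex.I : ℂ)) '' Set.Icc (-t₀) t₀) :=
    isCompact_Icc.image (by fun_prop)
  have ho : IsOpen {s : ℂ | K / 2 < ‖DV g s‖} :=
    isOpen_lt continuous_const (DV_diff hg).continuous.norm
  have hsub : ((fun t : ℝ => (1 / 2 + t * Complex.I : ℂ)) '' Set.Icc (-t₀) t₀)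
      ⊆ {s : ℂ | K / 2 < ‖DV g s‖} := by
    rintro _ ⟨t, ht, rfl⟩
    have := h t (abs_le.mpr ht)
    change K / 2 < _
    linarith
  obtain ⟨δ, hδ, hth⟩ := hc.exists_thickening_subset_open ho hsub
  refine ⟨δ / 2, by positivity, fun s h1 h2 h3 => ?_⟩
  have h4 : s ∈ Metric.thickening δ ((fun t : ℝ => (1 / 2 + t * Complex.I : ℂ)) '' Set.Icc (-t₀) t₀) := by
    rw [Metric.mem_thickening_iff]
    refine ⟨_, ⟨s.im, abs_le.mp h3, rfl⟩, ?_⟩
    rw [dist_eq_norm]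
    have e : s - (1 / 2 + s.im * Complex.I) = ((s.re - 1 / 2 : ℝ) : ℂ) := by
      apply Complex.ext <;> simp
    rw [e, Complex.norm_real, Real.norm_eq_abs, abs_of_nonneg (by linarith)]
    linarith
  exact (le_of_lt (hth h4))

/-- one step of the construction -/
def Step (t₀ : ℝ) (k : ℕ) (G : ℕ →₀ ℂ) (a : ℝ) (h : ℕ →₀ ℂ) (σ δ : ℝ) : Prop :=
  h 0 = 0 ∧ Mean h 1 ∧ (∀ s : ℂ, a ≤ s.re → ‖DV h s‖ ≤ 1) ∧ 1 / 2 < σ ∧ 0 < δ ∧ σ ≤ a ∧
    σ ≤ 1 / 2 + 1 / ((k : ℝ) + 1) ∧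
    ∀ s : ℂ, σ ≤ s.re → s.re ≤ σ + δ → |s.im| ≤ t₀ →
      Ms G + 2 + Real.exp k ≤ (1 / 2) ^ k * ‖DV h s‖

theorem step {t₀ : ℝ} (hkey : ∀ K σ₁ : ℝ, 1 / 2 < σ₁ → ∃ g : ℕ →₀ ℂ, g 0 = 0 ∧
      (∀ᶠ T : ℝ in atTop, 1 / (2 * T) * ∫ t in (-T)..T, ‖DV g (t * Complex.I)‖ ≤ 1) ∧
      (∀ t : ℝ, |t| ≤ t₀ → K ≤ ‖DV g (1 / 2 + t * Complex.I)‖) ∧
      (∀ s : ℂ, σ₁ ≤ s.re → ‖DV g s‖ ≤ 1)) (k : ℕ) (G : ℕ →₀ ℂ) (a : ℝ) (ha : 1 / 2 < a) :
    ∃ (h : ℕ →₀ ℂ) (σ δ : ℝ), Step t₀ k G a h σ δ := by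
  set K : ℝ := 2 * 2 ^ k * (Ms G + 2 + Real.exp k) with hK
  have hM := Ms_nonneg G
  have hKpos : 0 < K := by positivity
  obtain ⟨h, h0, hmean, hseg, hright⟩ := hkey K a ha
  obtain ⟨r, hr, hnear⟩ := near h0 hKpos hseg
  set m : ℝ := min r (min (a - 1 / 2) (1 / ((k : ℝ) + 1))) with hm
  have hmpos : 0 < m := lt_min hr (lt_min (by linarith) (by positivity))
  have hm1 : m ≤ r := min_le_left _ _
  have hm2 : m ≤ a - 1 / 2 := (min_le_right _ _).trans (min_le_left _ _)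
  have hm3 : m ≤ 1 / ((k : ℝ) + 1) := (min_le_right _ _).trans (min_le_right _ _)
  refine ⟨h, 1 / 2 + m / 2, m / 2, h0, hmean, hright, by linarith, by linarith, by linarith,
    by linarith, fun s h1 h2 h3 => ?_⟩
  have h4 := hnear s (by linarith) (by linarith) h3
  have h5 : Ms G + 2 + Real.exp k = (1 / 2) ^ k * (K / 2) := by
    rw [hK]
    have : (1 / 2 : ℝ) ^ k * 2 ^ k = 1 := by rw [← mul_pow]; norm_num
    calc Ms G + 2 + Real.exp k = ((1 / 2 : ℝ) ^ k * 2 ^ k) * (Ms G + 2 + Real.exp k) := by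
          rw [this, one_mul]
      _ = _ := by ring
  rw [h5]
  exact mul_le_mul_of_nonneg_left h4 (by positivity)

theorem hump : S_Key → S_Hump := by
  rintro ⟨t₀, ht₀, hkey⟩
  have hst : ∀ (k : ℕ) (G : ℕ →₀ ℂ) (a : ℝ), ∃ (h : ℕ →₀ ℂ) (σ δ : ℝ),
      1 / 2 < a → Step t₀ k G a h σ δ := by
    intro k G a
    by_cases ha : 1 / 2 < a
    · obtain ⟨h, σ, δ, hh⟩ := step hkey k G a ha
      exact ⟨h, σ, δ, fun _ => hh⟩
    · exact ⟨0, 0, 0, fun h => absurd h ha⟩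
  choose H S D hHSD using hst
  -- the states
  let st : ℕ → (ℕ →₀ ℂ) × ℝ := fun k => Nat.rec (0, 1)
    (fun k p => (p.1 + ((1 / 2 : ℂ) ^ k) • H k p.1 p.2, S k p.1 p.2)) k
  have st0 : st 0 = (0, 1) := rfl
  have stS : ∀ k, st (k + 1) = ((st k).1 + ((1 / 2 : ℂ) ^ k) • H k (st k).1 (st k).2,
    S k (st k).1 (st k).2) := fun k => rfl
  have hst : ∀ k, 1 / 2 < (st k).2 := by
    intro k
    induction k with
    | zero => rw [st0]; norm_num
    | succ k ih =>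
      rw [stS]
      exact (hHSD k (st k).1 (st k).2 ih).2.2.2.1
  set h : ℕ → ℕ →₀ ℂ := fun k => H k (st k).1 (st k).2 with hh
  set σ : ℕ → ℝ := fun k => S k (st k).1 (st k).2 with hσ
  set δ : ℕ → ℝ := fun k => D k (st k).1 (st k).2 with hδ
  set g : ℕ → ℕ →₀ ℂ := fun k => (st k).1 with hg
  set a : ℕ → ℝ := fun k => (st k).2 with ha
  have hstep : ∀ k, Step t₀ k (g k) (a k) (h k) (σ k) (δ k) := fun k =>
    hHSD k (st k).1 (st k).2 (hst k)
  have g0 : g 0 = 0 := by simp only [hg, st0]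
  have gS : ∀ k, g (k + 1) = g k + ((1 / 2 : ℂ) ^ k) • h k := fun k => by simp only [hg, stS, hh]
  have aS : ∀ k, a (k + 1) = σ k := fun k => by simp only [ha, stS, hσ]
  clear_value h σ δ g a
  have h00 : ∀ k, h k 0 = 0 := fun k => (hstep k).1
  have hmean : ∀ k, Mean (h k) 1 := fun k => (hstep k).2.1
  have hright : ∀ k (s : ℂ), a k ≤ s.re → ‖DV (h k) s‖ ≤ 1 := fun k => (hstep k).2.2.1
  have hσ2 : ∀ k, 1 / 2 < σ k := fun k => (hstep k).2.2.2.1
  have hδ0 : ∀ k, 0 < δ k := fun k => (hstep k).2.2.2.2.1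
  have hσa : ∀ k, σ k ≤ a k := fun k => (hstep k).2.2.2.2.2.1
  have hσk : ∀ k : ℕ, σ k ≤ 1 / 2 + 1 / ((k : ℝ) + 1) := fun k => (hstep k).2.2.2.2.2.2.1
  have hbox := fun k => (hstep k).2.2.2.2.2.2.2
  have gk0 : ∀ k, g k 0 = 0 := by
    intro k
    induction k with
    | zero => rw [g0]; rfl
    | succ k ih => rw [gS, Finsupp.add_apply, ih, Finsupp.smul_apply, h00]; simp
  have hanti : Antitone a := antitone_nat_of_succ_le fun k => by rw [aS]; exact hσa k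
  -- partial sums
  have gsum : ∀ k s, DV (g k) s = ∑ i ∈ Finset.range k, (1 / 2 : ℂ) ^ i * DV (h i) s := by
    intro k s
    induction k with
    | zero => rw [g0, DV_zero]; simp
    | succ k ih => rw [gS, DV_add, DV_smul, ih, Finset.sum_range_succ]
  set f : ℕ → ℂ → ℂ := fun i s => (1 / 2 : ℂ) ^ i * DV (h i) s with hf
  have hfn : ∀ i s, a i ≤ s.re → ‖f i s‖ ≤ (1 / 2 : ℝ) ^ i := by
    intro i s hs
    simp only [hf]
    rw [norm_mul, norm_pow]
    have e : ‖(1 / 2 : ℂ)‖ = 1 / 2 := by simp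
    rw [e]
    calc (1 / 2 : ℝ) ^ i * ‖DV (h i) s‖ ≤ (1 / 2 : ℝ) ^ i * 1 :=
          mul_le_mul_of_nonneg_left (hright i s hs) (by positivity)
      _ = _ := mul_one _
  have hgeo : Summable fun i : ℕ => (1 / 2 : ℝ) ^ i := summable_geometric_two
  set F : ℂ → ℂ := fun s => ∑' i, f i s with hF
  -- tendsto of sigma
  have hσt : Tendsto σ atTop (𝓝 (1 / 2)) := by
    have h1 : Tendsto (fun k : ℕ => (1 / 2 : ℝ) + 1 / ((k : ℝ) + 1)) atTop (𝓝 (1 / 2 + 0)) :=
      tendsto_const_nhds.add tendsto_one_div_add_atTop_nhds_zero_nat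
    rw [add_zero] at h1
    exact tendsto_of_tendsto_of_tendsto_of_le_of_le tendsto_const_nhds h1
      (fun k => (hσ2 k).le) hσk
  -- summability
  have hk0 : ∀ x : ℝ, 1 / 2 < x → ∃ k, a k < x := by
    intro x hx
    obtain ⟨k, hk⟩ := (hσt.eventually (gt_mem_nhds hx)).exists
    exact ⟨k + 1, by rw [aS]; exact hk⟩
  have hu : ∀ k0 : ℕ, Summable fun i : ℕ => (1 / 2 : ℝ) ^ i +
      (if i < k0 then (1 / 2 : ℝ) ^ i * Ms (h i) else 0) := by
    intro k0
    refine hgeo.add ?_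
    refine summable_of_ne_finset_zero (s := Finset.range k0) fun i hi => ?_
    rw [if_neg (by simpa using hi)]
  have hub : ∀ (k0 i : ℕ) (s : ℂ), a k0 ≤ s.re → ‖f i s‖ ≤ (1 / 2 : ℝ) ^ i +
      (if i < k0 then (1 / 2 : ℝ) ^ i * Ms (h i) else 0) := by
    intro k0 i s hs
    by_cases hi : i < k0
    · rw [if_pos hi]
      have h0 : 0 ≤ s.re := by
        have : 1 / 2 < a k0 := by
          rcases k0 with _ | k
          · omega
          · rw [aS]; exact hσ2 k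
        linarith
      simp only [hf]
      rw [norm_mul, norm_pow]
      have e : ‖(1 / 2 : ℂ)‖ = 1 / 2 := by simp
      rw [e]
      have h1 : (1 / 2 : ℝ) ^ i * ‖DV (h i) s‖ ≤ (1 / 2 : ℝ) ^ i * Ms (h i) :=
        mul_le_mul_of_nonneg_left (DV_le (h00 i) h0) (by positivity)
      have h2 : (0 : ℝ) < (1 / 2) ^ i := by positivity
      linarith
    · rw [if_neg hi, add_zero]
      exact hfn i s ((hanti (not_lt.mp hi)).trans hs)
  have hsum : ∀ s : ℂ, 1 / 2 < s.re → Summable fun i => f i s := by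
    intro s hs
    obtain ⟨k0, hk⟩ := hk0 _ hs
    exact Summable.of_norm_bounded (hu k0) fun i => hub k0 i s hk.le
  refine ⟨t₀, g, F, σ, δ, ht₀, gk0, ?_, ?_, ?_, fun k => ⟨hσ2 k, hδ0 k⟩, hσt, ?_⟩
  · -- Cauchy
    have key : ∀ k m : ℕ, Mean (g (k + m) - g k) (∑ i ∈ Finset.range m, (1 / 2 : ℝ) ^ (k + i)) := by
      intro k m
      induction m with
      | zero => simpa using Mean.zero
      | succ m ih =>
        have e : g (k + (m + 1)) - g k = (g (k + m) - g k) + ((1 / 2 : ℂ) ^ (k + m)) • h (k + m) := by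
          rw [← add_assoc, gS]; abel
        rw [e, Finset.sum_range_succ]
        refine Mean.add ?_ ?_ ih ?_
        · rw [Finsupp.sub_apply, gk0, gk0, sub_zero]
        · rw [Finsupp.smul_apply, h00, smul_zero]
        · have := (hmean (k + m)).smul ((1 / 2 : ℂ) ^ (k + m))
          have e2 : ‖(1 / 2 : ℂ) ^ (k + m)‖ * 1 = (1 / 2 : ℝ) ^ (k + m) := by
            rw [norm_pow, mul_one]; simp
          rwa [e2] at this
    have hb : ∀ k m : ℕ, ∑ i ∈ Finset.range m, (1 / 2 : ℝ) ^ (k + i) ≤ 2 * (1 / 2) ^ k := by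
      intro k m
      simp_rw [pow_add]
      rw [← Finset.mul_sum]
      have h1 : ∑ i ∈ Finset.range m, (1 / 2 : ℝ) ^ i ≤ 2 := by
        have := sum_geometric_two_le m
        simpa using this
      have h2 : (0 : ℝ) < (1 / 2) ^ k := by positivity
      nlinarith
    intro ε hε
    obtain ⟨K, hK⟩ := exists_pow_lt_of_lt_one (show 0 < ε / 2 by positivity)
      (show (1 / 2 : ℝ) < 1 by norm_num)
    have hkey2 : ∀ j ≥ K, ∀ k ≥ K, k ≤ j → ∀ᶠ T : ℝ in atTop,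
        1 / (2 * T) * ∫ t in (-T)..T, ‖DV (g j - g k) (t * Complex.I)‖ < ε := by
      intro j _ k hk hkj
      obtain ⟨m, rfl⟩ := Nat.exists_eq_add_of_le hkj
      filter_upwards [key k m] with T hT
      have h1 : (1 / 2 : ℝ) ^ k ≤ (1 / 2) ^ K :=
        pow_le_pow_of_le_one (by norm_num) (by norm_num) hk
      have := hb k m
      linarith
    refine ⟨K, fun j hj k hk => ?_⟩
    rcases le_total k j with hkj | hkj
    · exact hkey2 j hj k hk hkj
    · have := hkey2 k hk j hj hkj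
      have e : ∀ t : ℝ, ‖DV (g j - g k) (t * Complex.I)‖ = ‖DV (g k - g j) (t * Complex.I)‖ := by
        intro t
        rw [← neg_sub (g k) (g j), DV_neg, norm_neg]
      simp_rw [e]
      exact this
  · intro s hs
    have := (hsum s hs).hasSum.tendsto_sum_nat
    simpa only [gsum] using this
  · intro s hs
    obtain ⟨k0, hk⟩ := hk0 _ hs
    have hU : IsOpen {s : ℂ | a k0 < s.re} := isOpen_lt continuous_const Complex.continuous_re
    have h1 : DifferentiableOn ℂ F {s : ℂ | a k0 < s.re} :=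
      Complex.differentiableOn_tsum_of_summable_norm (hu k0)
        (fun i => ((DV_diff (h00 i)).const_mul _).differentiableOn) hU
        (fun i w hw => hub k0 i w (le_of_lt hw))
    exact ((h1 s hk).differentiableAt (hU.mem_nhds hk)).differentiableWithinAt
  · intro k s h1 h2 h3
    have hs : 1 / 2 < s.re := (hσ2 k).trans_le h1
    have e1 := (hsum s hs).sum_add_tsum_nat_add (k + 1)
    have e2 : F s = DV (g k) s + f k s + ∑' i, f (i + (k + 1)) s := by
      rw [gsum, ← Finset.sum_range_succ (fun i => (1 / 2 : ℂ) ^ i * DV (h i) s)]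
      exact e1.symm
    have hA : ‖DV (g k) s‖ ≤ Ms (g k) := DV_le (gk0 k) (by linarith)
    have hB : Ms (g k) + 2 + Real.exp k ≤ ‖f k s‖ := by
      have := hbox k s h1 h2 h3
      simp only [hf]
      rw [norm_mul, norm_pow]
      have e : ‖(1 / 2 : ℂ)‖ = 1 / 2 := by simp
      rw [e]
      exact this
    have hC : ‖∑' i, f (i + (k + 1)) s‖ ≤ 2 := by
      refine tsum_of_norm_bounded hasSum_geometric_two fun i => ?_
      have h5 : a (i + (k + 1)) ≤ s.re := by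
        refine (hanti (Nat.le_add_left (k + 1) i)).trans ?_
        rw [aS]; exact h1
      refine (hfn _ s h5).trans ?_
      exact pow_le_pow_of_le_one (by norm_num) (by norm_num) (Nat.le_add_right _ _)
    have h6 : ‖f k s‖ ≤ ‖F s‖ + ‖DV (g k) s‖ + ‖∑' i, f (i + (k + 1)) s‖ := by
      have : f k s = F s - DV (g k) s - ∑' i, f (i + (k + 1)) s := by rw [e2]; ring
      rw [this]
      exact (norm_sub_le _ _).trans (add_le_add (norm_sub_le _ _) le_rfl)
    linarith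

end Pool.Agent.W605.NV
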